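import Mathlib
import Pool.Agent.H901.GM.Fin
import Pool.Agent.H901.GM.Rt

/-!
# Nets of Gushel–Mukai fourfolds: the generic member is not stably rational over the base

Let `H ⊂ ℙ^9` be a very general hyperplane, `Q_0, …, Q_s` very general quadrics over `ℂ`, `s ≥ 2`,
and let `X_η = Gr(2,5) ∩ H ∩ {Q_0 + t_1 Q_1 + … + t_s Q_s = 0}` be the generic member of
the linear system of Gushel–Mukai fourfolds which is spanned by the `Gr(2,5) ∩ H ∩ Q_j` (`s = 2`: a
net), over the field `K = ℂ(t_1, …, t_s)`. We show that `X_η` is not stably rational over `K`. So
the members of the net (very general Gushel–Mukai fourfolds) have no simultaneous stable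
parametrization which depends rationally on the parameters, or rationally up to a choice of odd
degree. The total space of the family is rational over `ℂ`.

More generally we consider families `∑_{τ ∈ T} t^τ F_τ = 0`, where `T` is a set of squarefree
monomials `t^τ` in `t_1, …, t_s` which contains `1` and at least two of the `t_i`, and the `F_τ` are
very general quadratic forms. For instance, if `T` consists of all squarefree monomials, then we
obtain the generic fibre over `(ℙ^1)^s` of a very general divisor of multidegree `(1, …, 1, 2)` in
`(ℙ^1)^s × (Gr(2,5) ∩ H)`.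

(A) Let `L / K` be an algebraic field extension. There is no dominant rational map of odd degree
over `K` from the affine space of dimension `4 + m` over `L` to `X_η × 𝔸^m`. For every `L` of odd
degree over `K` (for instance `L = K`) this says that `X_η` is not stably rational over `L`.

(A') More generally, let `r` be a rational map over `L` from an affine space to `X_η`, and let `M` be
a field of odd degree over the function field of `X_η × 𝔸^m` which contains `L`. Then the generic
point of `X_η` is not the value `r(v)` at a point `v` of the affine space over `M`. For every `L` of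
odd degree over `K` (for instance `L = K`) this says that `X_η × 𝔸^m` is not retract rational over
`L`.

(B) Let `M` be a field which is a finite extension of odd degree of the function field of
`X_η × 𝔸^m`. The generic point of `X_η`, as a point over `M`, is not joined by a chain of rational
curves on `X_η` over `M` to any point whose coordinates are algebraic over `K`. (For `s ≤ 4`
the variety `X_η` has such points over `K`, the base points of the linear system; for `s = 2` they
form a K3 surface.)

These statements hold for all `(H, F_τ)` whose coefficients are not a zero of one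
of countably many nonzero polynomials with rational coefficients, which do not depend on `(H, F_τ)`.

Proof. Let `a = (z13, z14, z15)`, `b = (z23, z24, z25)`. The family specializes to the family
`z12 = 0`, `Φ = (z45 + z14 + z24)² + z13 z23 + z13 z24 + t_1 (z35² + z14 z24) +
t_2 (z34² + z15 z25) = 0`. On `z12 = 0` the Plücker relations give `a = λ w`, `b = μ w`, and `Φ = 0`
becomes `R(m) + λ μ S(w) = 0` with `w · m = (λ + μ) w_0 w_1`, `R = ⟨1, t_1, t_2⟩` and
`S(w) = R(w) + w_0 w_1`. For a point of this variety over a field `M ⊇ K`, over which the Pfister
form `φ = ⟨⟨t_1, …, t_s⟩⟩` is anisotropic, we consider the class of `λ μ` in `M^×` modulo the values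
of `φ` over `M`.

The class is constant along rational curves over `M`: the order of `λ μ` is even
at all places of `M(z)` with the property that `φ` is anisotropic over the residue field.
(If `λ`, `μ` have different orders, then `m` has larger order than one of them, hence `w_0 w_1`
vanishes at the place, so `S(w)` is `R(w)` there, and `R(m)` and `S(w)` are values of `φ`.)
By the norm principle `λ μ` is then the product of a constant and a value of `φ` over `M(z)`, so
that the classes at the two ends of the curve agree. The class of a point over `M` of the very
general member is the class of its specialization (at a place over which the `t_i` are constant).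
By a Newton polygon argument it is also constant along the rational curves on the very
general member, which may degenerate to chains of rational curves on the special variety.

If the coordinates of the point are algebraic over `K`, then the class is trivial, since `φ`
represents all elements of a finite extension of `K` (Tsen–Lang). On the other hand the class of the
generic point is not trivial, even over extensions of odd degree: `Φ` is linear in `t_1`, hence the
total space of the family is rational, and by successive specializations the Pfister form
`⟨⟨t_1, …, t_s, λ μ⟩⟩` is anisotropic over its function field, and over the extensions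
of odd degree (Springer).
-/

set_option autoImplicit false

namespace Pool.Agent.Results.MP_274aea_ag.Nets

open MvPolynomial Module

noncomputable section

/-- the field `K = ℂ(t_1, …, t_s)` -/
abbrev K (s : ℕ) : Type := FractionRing (MvPolynomial (Fin s) ℂ)

/-- the parameters `t_1, …, t_s` -/
def t (s : ℕ) (j : Fin s) : K s := algebraMap (MvPolynomial (Fin s) ℂ) (K s) (X j)

/-- the linear form with the coefficients `h` -/
def linearForm (s : ℕ) (h : Fin 10 → ℂ) : MvPolynomial (Fin 10) (K s) :=
  ∑ i, C (algebraMap ℂ (K s) (h i)) * X i

/-- The quadratic form `∑_τ t^τ F_τ`. Here `τ` runs through a finite set `T` of subsets of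
`{1, …, s}`, and `t^τ` is the product of the `t_j` with `j ∈ τ`. -/
def member {s : ℕ} (T : Finset (Finset (Fin s)))
    (F : {τ // τ ∈ T} → MvPolynomial (Fin 10) ℂ) : MvPolynomial (Fin 10) (K s) :=
  ∑ τ : {τ // τ ∈ T}, C (∏ j ∈ τ.1, t s j) * map (algebraMap ℂ (K s)) (F τ)

/-- The equations of `Gr(2,5) ∩ {H = 0} ∩ {F = 0}` in `ℙ^9`: the Plücker relations and `H`, `F`. The
variables `X 0, …, X 9` are the Plücker coordinates
`z12, z13, z14, z15, z23, z24, z25, z34, z35, z45`. -/
def GM {k : Type} [CommRing k] (H F : MvPolynomial (Fin 10) k) :
    Set (MvPolynomial (Fin 10) k) :=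
  {X 0 * X 7 - X 1 * X 5 + X 2 * X 4, X 0 * X 8 - X 1 * X 6 + X 3 * X 4,
    X 0 * X 9 - X 2 * X 6 + X 3 * X 5, X 1 * X 9 - X 2 * X 8 + X 3 * X 7,
    X 4 * X 9 - X 5 * X 8 + X 6 * X 7, H, F}

/-- The points `u` and `u'` of the projective space over `M` are joined by a rational curve over `M`
on the projective variety with the equations `S`: there are polynomials `C_i` in one variable, of
degree at most `D`, with `f(C) = 0` for `f ∈ S`, such that `u` is the value of `C` at `0` and `u'`
is the value at `∞` (the vector of the coefficients in degree `D`). -/
def Joined {k M : Type} [Field k] [Field M] [Algebra k M] {r : ℕ}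
    (S : Set (MvPolynomial (Fin r) k)) (u u' : Fin r → M) : Prop :=
  u ≠ 0 ∧ u' ≠ 0 ∧ ∃ (D : ℕ) (C : Fin r → Polynomial M), (∀ i, (C i).natDegree ≤ D) ∧
    (∀ f ∈ S, aeval C f = 0) ∧ (∃ a : M, a ≠ 0 ∧ ∀ i, (C i).coeff 0 = a * u i) ∧
    ∃ b : M, b ≠ 0 ∧ ∀ i, (C i).coeff D = b * u' i

/-- the field generated over `k` by the ratios of the coordinates of the point `g` of the projective
space and by the elements `R_l` -/
def pointField (k : Type) {M : Type} [Field k] [Field M] [Algebra k M] {r m : ℕ}
    (g : Fin r → M) (R : Fin m → M) : IntermediateField k M :=
  IntermediateField.adjoin k ({z | ∃ i j, z = g i / g j} ∪ Set.range R)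

/-- the field of rational functions in `N` variables over `L` -/
abbrev RatFun (N : ℕ) (L : Type) [Field L] : Type := FractionRing (MvPolynomial (Fin N) L)

/-- `g` is a point over `M` of the projective variety with the equations `S`, and the degree of
`M` over the field generated over `k` by `(g, R)` is odd (`finrank` is `0` if the degree is
infinite) -/
def OddPoint (k : Type) {M : Type} [Field k] [Field M] [Algebra k M] {r m : ℕ}
    (S : Set (MvPolynomial (Fin r) k)) (g : Fin r → M) (R : Fin m → M) : Prop :=
  g ≠ 0 ∧ (∀ f ∈ S, aeval g f = 0) ∧ Odd (finrank (pointField k g R) M)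

/-- For every algebraic extension `L` of `k`, every `m` and every rational map `(g, R)` over `k`
from the affine space of dimension `n + m` over `L` to the product of the projective variety with
the equations `S` and the affine space of dimension `m`, the degree of `(g, R)` is even or
infinite. -/
def NoOddParametrization {k : Type} [Field k] (n : ℕ) {r : ℕ}
    (S : Set (MvPolynomial (Fin r) k)) : Prop :=
  ∀ (L : Type) [Field L] [Algebra k L] [Algebra.IsAlgebraic k L] (m : ℕ)
    (g : Fin r → RatFun (n + m) L) (R : Fin m → RatFun (n + m) L), ¬ OddPoint k S g R

/-- There are no algebraic extension `L` of `k`, rational map `ρ` over `L` from an affine space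
to the projective variety `X` with the equations `S`, field `M` containing `L` and point `v` of the
affine space over `M`, such that `g = ρ(v)` is a generic point of `X` and `M` is of odd degree over
the field `k(g, R)` of a generic point `(g, R)` of the product of `X` with an affine space of
dimension `m` (the transcendence degree `n + m` of `M` says that this point is generic, if `X` has
dimension `n` and is irreducible). For `L = k`, `m = 0` and `M = k(g)` this says that `X` is not
retract rational: if `ρ ∘ i` is the identity of `X` for rational maps `i` from `X` to the affine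
space and `ρ` back, then `g = ρ(v)` for `v = i(g)`. The polynomials `ρ_i` are homogeneous
coordinates of the map `ρ`. -/
def NoOddRetraction {k : Type} [Field k] (n : ℕ) {r : ℕ} (S : Set (MvPolynomial (Fin r) k)) :
    Prop :=
  ∀ (L : Type) [Field L] [Algebra k L] [Algebra.IsAlgebraic k L] (N : ℕ)
    (ρ : Fin r → MvPolynomial (Fin N) L), (∀ f ∈ S, aeval ρ f = 0) →
    ∀ (M : Type) [Field M] [Algebra k M] [Algebra L M] [IsScalarTower k L M] (v : Fin N → M)
      (m : ℕ) (R : Fin m → M), Algebra.trdeg k M = ((n + m : ℕ) : Cardinal) →
      ¬ OddPoint k S (fun i => aeval v (ρ i)) R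

/-- Let `g` be a point of the projective variety with the equations `S`,
with coordinates in an extension `M` of `k` of transcendence degree `n + m`, and let
`R_1, …, R_m ∈ M`. We assume that the degree of `M` over the field generated by `(g, R)`
is odd (so `(g, R)` is a generic point of the product of the variety, if it has dimension `n` and
is irreducible, and the affine space of dimension `m`). Then `g` is not joined by a chain of
rational curves over `M` on the variety to any point whose coordinates are algebraic over `k`. -/
def NotConnected {k : Type} [Field k] (n : ℕ) {r : ℕ} (S : Set (MvPolynomial (Fin r) k)) :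
    Prop :=
  ∀ (M : Type) [Field M] [Algebra k M] (m : ℕ) (g : Fin r → M) (R : Fin m → M),
    Algebra.trdeg k M = ((n + m : ℕ) : Cardinal) → OddPoint k S g R →
    ∀ p : Fin r → M, (∀ i, IsAlgebraic k (p i)) → ¬ Relation.ReflTransGen (Joined S) g p

/-- A retract of an affine space has rational curves which join the generic point to rational
points. -/
theorem NotConnected.retract {k : Type} [Field k] [Infinite k] {n r : ℕ}
    {S : Set (MvPolynomial (Fin r) k)} (hS : ∀ f ∈ S, ∃ d, f.IsHomogeneous d)
    (hB : NotConnected n S) : NoOddRetraction n S := by
  rintro L _ _ _ N ρ hρ M _ _ _ _ v m R htr ⟨hg0, hg, hodd⟩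
  have hinf : Infinite L := Infinite.of_injective _ (algebraMap k L).injective
  obtain ⟨p, hp, D, Cc, h3, h4, h5, h6⟩ := Pool.Agent.H901.GM.retract_curve (M := M) ρ v hg0
  refine hB M m _ R htr ⟨hg0, hg, hodd⟩ (fun i => algebraMap L M (p i))
    (fun i => (Algebra.IsAlgebraic.isAlgebraic (p i)).algebraMap)
    (Relation.ReflTransGen.single ⟨hg0, fun h => hp ?_, D, Cc, h3, fun f hf => ?_, h5, h6⟩)
  · funext i
    have h7 := congrFun h i
    rw [Pi.zero_apply, map_eq_zero] at h7
    exact h7
  · obtain ⟨d, hd⟩ := hS f hf
    have h7 := h4 (map (algebraMap k L) f) d (hd.map _) (by rw [aeval_map_algebraMap, hρ f hf])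
    rw [aeval_map_algebraMap] at h7
    exact h7

/-- the exponents of the monomials of degree two in ten variables -/
abbrev Mon : Type := {β : Fin 10 →₀ ℕ // β.degree = 2}

/-- The property `P` holds for all pairs of a linear form `h` and a family of quadratic forms,
indexed by the finite set `T`, outside a countable union of hypersurfaces: there is a countable
set `Ps` of nonzero polynomials with rational coefficients in the coefficients of `h` and of the
quadratic forms `F_τ`, such that `P h F` holds for all `h` and every family `F` of quadratic forms
such that no member of `Ps` vanishes at the coefficients of `(h, F)`. -/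
def VeryGeneral {s : ℕ} (T : Finset (Finset (Fin s)))
    (P : (Fin 10 → ℂ) → ({τ // τ ∈ T} → MvPolynomial (Fin 10) ℂ) → Prop) : Prop :=
  ∃ Ps : Set (MvPolynomial (Fin 10 ⊕ ({τ // τ ∈ T} × Mon)) ℚ), Ps.Countable ∧ 0 ∉ Ps ∧
    ∀ (h : Fin 10 → ℂ) (F : {τ // τ ∈ T} → MvPolynomial (Fin 10) ℂ),
      (∀ τ, (F τ).IsHomogeneous 2) →
      (∀ Q ∈ Ps, aeval (Sum.elim h fun p : {τ // τ ∈ T} × Mon => coeff p.2.1 (F p.1)) Q ≠ 0) →
      P h F

/-- **Very general families of Gushel–Mukai fourfolds.** Let `T` be a set of squarefree monomials
in `t_1, …, t_s` which contains `1` and two of the `t_i`. Then the generic member of a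
very general family `Gr(2,5) ∩ {h = 0} ∩ {∑_τ t^τ F_τ = 0}` of Gushel–Mukai fourfolds has the
properties (A), (A') and (B). -/
theorem result (s : ℕ) (T : Finset (Finset (Fin s))) (h0 : ∅ ∈ T)
    (h1 : ∃ i j, i ≠ j ∧ {i} ∈ T ∧ {j} ∈ T) :
    VeryGeneral T fun h F =>
      NoOddParametrization 4 (GM (linearForm s h) (member T F)) ∧
      NoOddRetraction 4 (GM (linearForm s h) (member T F)) ∧
      NotConnected 4 (GM (linearForm s h) (member T F)) := by
  classical
  obtain ⟨i1, i2, h12, hT1, hT2⟩ := h1
  refine ⟨{P | P ≠ 0}, ?_, fun h => h rfl, ?_⟩
  · have : Countable (MvPolynomial (Fin 10 ⊕ ({τ // τ ∈ T} × Mon)) ℚ) :=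
      AddMonoidAlgebra.coeff_injective.countable
    exact Set.to_countable _
  intro h F hF hP
  let F' : Finset (Fin s) → MvPolynomial (Fin 10) ℂ := fun τ =>
    if h : τ ∈ T then F ⟨τ, h⟩ else 0
  have hF' : ∀ τ : {τ // τ ∈ T}, F' τ.1 = F τ := fun τ => dif_pos τ.2
  have hfam : member T F = Pool.Agent.H901.GM.mem T F' := by
    unfold member Pool.Agent.H901.GM.mem
    rw [← Finset.sum_coe_sort T]
    refine Finset.sum_congr rfl fun τ _ => ?_
    rw [hF' τ]
    rfl
  have hFh : ∀ τ ∈ T, (F' τ).IsHomogeneous 2 := by
    intro τ hτ
    rw [hF' ⟨τ, hτ⟩]
    exact hF _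
  have hind : AlgebraicIndependent ℚ (Pool.Agent.H901.GM.cf T h F') := by
    rw [algebraicIndependent_iff]
    intro P h'
    by_contra hne
    refine hP P hne ?_
    rw [← h']
    congr 2
    unfold Pool.Agent.H901.GM.cf
    congr 1
    funext p
    rw [hF' p.1]
  have hGM : GM (linearForm s h) (member T F) =
      Pool.Agent.H901.GM.eqs (Pool.Agent.H901.GM.lin s h) (Pool.Agent.H901.GM.mem T F') := by
    rw [hfam]
    rfl
  rw [hGM]
  have hB : NotConnected 4 (Pool.Agent.H901.GM.eqs (Pool.Agent.H901.GM.lin s h)
      (Pool.Agent.H901.GM.mem T F')) := Pool.Agent.H901.GM.finB h12 h0 hT1 hT2 hFh hind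
  have hinf : Infinite (K s) := Infinite.of_injective _ (algebraMap ℂ (K s)).injective
  exact ⟨Pool.Agent.H901.GM.finA h12 h0 hT1 hT2 hFh hind,
    hB.retract (Pool.Agent.H901.GM.eqs_hom (Pool.Agent.H901.GM.lin_hom s h)
      (Pool.Agent.H901.GM.mem_hom hFh)), hB⟩

end

end Pool.Agent.Results.MP_274aea_ag.Nets
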